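import Pool.Agent.Lib.MP_5a68e6_TOR.Fin

/-!
# Non-separable convex absolute retracts in linear metric spaces are Hilbert spaces

A non-separable, completely metrizable, convex subset of a linear metric space which is an absolute
retract is homeomorphic to `ℓ²(Γ)`, where the cardinality of `Γ` is the density character of the
set.
-/

set_option autoImplicit false

namespace Pool.Agent.Results.MP_5a68e6_gt.HilbertHomeomorphy

open Set Topology TopologicalSpace Cardinal

/-- `X` is an absolute retract: whenever `X` is embedded as a closed subspace of a metrizable space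
`Y`, it is a retract of `Y` (the embedding has a continuous left inverse defined on `Y`). -/
def IsAR (X : Type) [TopologicalSpace X] : Prop :=
  ∀ (Y : Type) [TopologicalSpace Y] [MetrizableSpace Y] (e : X → Y), IsClosedEmbedding e →
    ∃ r : Y → X, Continuous r ∧ ∀ x, r (e x) = x

/-- The distance functions `y ↦ d(x, y) - d(x₀, y)` embed a metric space isometrically into a
Banach space. -/
private noncomputable def emb {X : Type} [MetricSpace X] (x0 x : X) :
    BoundedContinuousFunction X ℝ :=
  BoundedContinuousFunction.ofNormedAddCommGroup (fun y => dist x y - dist x0 y)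
    (by fun_prop) (dist x x0) (fun y => by
      rw [Real.norm_eq_abs, abs_le]
      constructor
      · linarith [dist_triangle x0 x y, dist_comm x x0]
      · linarith [dist_triangle x x0 y])

private theorem emb_apply {X : Type} [MetricSpace X] (x0 x y : X) :
    emb x0 x y = dist x y - dist x0 y := rfl

private theorem emb_isometry {X : Type} [MetricSpace X] (x0 : X) : Isometry (emb x0) := by
  refine Isometry.of_dist_eq fun x x' => le_antisymm ?_ ?_
  · rw [BoundedContinuousFunction.dist_le dist_nonneg]
    intro y
    rw [emb_apply, emb_apply, Real.dist_eq, abs_le]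
    constructor
    · linarith [dist_triangle x' x y, dist_comm x x']
    · linarith [dist_triangle x x' y]
  · have h := BoundedContinuousFunction.dist_coe_le_dist (f := emb x0 x) (g := emb x0 x') x'
    rw [emb_apply, emb_apply, Real.dist_eq, dist_self] at h
    have h2 := le_abs_self (dist x x' - dist x0 x' - (0 - dist x0 x'))
    linarith

/-- A nonempty completely metrizable absolute retract is an absolute extensor for metrizable
spaces. -/
private theorem isAE_of_isAR {X : Type} [TopologicalSpace X] [IsCompletelyMetrizableSpace X]
    [Nonempty X] (h : IsAR X) : Pool.Agent.TOR.IsAE X := by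
  intro Y _ _ A hA f hf
  let m := upgradeIsCompletelyMetrizable X
  obtain ⟨x0⟩ := ‹Nonempty X›
  obtain ⟨r, hr, hre⟩ := h (BoundedContinuousFunction X ℝ) (emb x0)
    (emb_isometry x0).isClosedEmbedding
  obtain ⟨g, hg, hgf⟩ := Pool.Agent.TOR.dugundji hA (fun a => emb x0 (f a))
    ((emb_isometry x0).continuous.comp hf)
  exact ⟨fun y => r (g y), hr.comp hg, fun a => by
    show r (g a) = f a
    rw [hgf a, hre]⟩

/-- Let `C` be a convex subset of a linear metric space `L` (a real topological vector space whose
topology is metrizable; neither local convexity nor completeness is assumed). If `C` is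
non-separable, completely metrizable and an absolute retract, then `C` is homeomorphic to the
Hilbert space `ℓ²(Γ)` for a set `Γ` whose cardinality is the density character of `C` (the least
cardinality of a dense subset). -/
theorem result :
    ∀ (L : Type) [AddCommGroup L] [Module ℝ L] [TopologicalSpace L]
      [IsTopologicalAddGroup L] [ContinuousSMul ℝ L] [MetrizableSpace L] (C : Set L),
      Convex ℝ C → IsCompletelyMetrizableSpace C → ¬ SeparableSpace C → IsAR C →
      ∃ Γ : Type, Nonempty (C ≃ₜ lp (fun _ : Γ => ℝ) 2) ∧
        (∃ D : Set C, Dense D ∧ #D = #Γ) ∧ ∀ D : Set C, Dense D → #Γ ≤ #D := by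
  intro L _ _ _ _ _ _ C hC hcm hsep hAR
  have := hcm
  have hne : Nonempty C := by
    by_contra h
    rw [not_nonempty_iff] at h
    exact hsep ⟨⟨∅, Set.countable_empty, fun x => (h.false x).elim⟩⟩
  have hAE := isAE_of_isAR hAR
  obtain ⟨κ, hκ, hdens, hmin⟩ := Pool.Agent.TOR.exists_density_char C hsep
  have hfar : ∀ D : Set L, #D < κ → ∃ z ∈ C, z ∉ closure (Submodule.span ℝ D : Set L) := by
    intro D hD
    by_contra hcon
    push Not at hcon
    have h1 : Pool.Agent.TOR.DensLE (max ℵ₀ #D) C :=
      Pool.Agent.TOR.densLE_of_subset_closure_span (le_max_left _ _) (le_max_right _ _) hcon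
    exact absurd ((hmin _ h1).trans_lt (max_lt hκ hD)) (lt_irrefl _)
  have hg := Pool.Agent.TOR.good_convex hC hAE hκ hdens hfar
  have hι : #κ.out = κ := Cardinal.mk_out κ
  have hg2 : Pool.Agent.TOR.Good κ (univ : Set (lp (fun _ : κ.out => ℝ) (2 : ENNReal))) := by
    have := Pool.Agent.TOR.good_l2 κ.out (by rw [hι]; exact hκ)
    rwa [hι] at this
  obtain ⟨e⟩ := Pool.Agent.TOR.good_unique hκ.le hg hg2
  refine ⟨κ.out, ⟨e.trans (Homeomorph.Set.univ _)⟩, ?_, ?_⟩
  · obtain ⟨D, hD, hDκ⟩ := hdens
    exact ⟨D, hD, by rw [hι]; exact le_antisymm hDκ (hmin _ ⟨D, hD, le_rfl⟩)⟩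
  · intro D hD
    rw [hι]
    exact hmin _ ⟨D, hD, le_rfl⟩

end Pool.Agent.Results.MP_5a68e6_gt.HilbertHomeomorphy
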