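import Pool.Agent.Lib.MP_5a68e6_HLF.D

set_option autoImplicit false

namespace Pool.Agent.Results.MP_5a68e6_gt.LocallyFiniteApproximation

open Set Topology

/-- Every convex subset `C` of a metrizable real topological vector space which is non-separable
(or, more generally, contains a bounded uniformly separated sequence) has the countable locally
finite approximation property: for every open cover of `C` there are continuous maps
`f n : C → C`, close to the identity with respect to the cover, whose images have locally finite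
closures in `C`. -/
theorem result.{u} :
    ∀ (E : Type u) [AddCommGroup E] [Module ℝ E] [TopologicalSpace E]
      [IsTopologicalAddGroup E] [ContinuousSMul ℝ E]
      [TopologicalSpace.MetrizableSpace E] (C : Set E),
      Convex ℝ C →
      (¬ TopologicalSpace.SeparableSpace C ∨
        ∃ e : ℕ → E, (∀ n, e n ∈ C) ∧ Bornology.IsVonNBounded ℝ (range e) ∧
          ∃ U ∈ 𝓝 (0 : E), ∀ j k, j ≠ k → e j - e k ∉ U) →
      ∀ 𝒰 : Set (Set C), (∀ U ∈ 𝒰, IsOpen U) → ⋃₀ 𝒰 = univ →
        ∃ f : ℕ → C → C, (∀ n, Continuous (f n)) ∧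
          (∀ n x, ∃ U ∈ 𝒰, x ∈ U ∧ f n x ∈ U) ∧
          LocallyFinite (fun n => closure (range (f n))) := by
  intro E _ _ _ _ _ _ C hC hsep 𝒰 ho hcov
  obtain ⟨e, heC, hb, U, hU, he⟩ : ∃ e : ℕ → E, (∀ n, e n ∈ C) ∧
      Bornology.IsVonNBounded ℝ (range e) ∧ ∃ U ∈ 𝓝 (0 : E), ∀ j k, j ≠ k → e j - e k ∉ U := by
    rcases hsep with h | h
    · exact Pool.Agent.HLF.exists_bounded_separated h
    · exact h
  obtain ⟨V, hV, g, hg⟩ := Pool.Agent.HLF.exists_selection hU e he
  have hb' : Bornology.IsVonNBounded ℝ (range (e ∘ g)) := hb.subset (range_comp_subset_range g e)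
  exact Pool.Agent.HLF.lfap_of_bounded_separated hC (e := e ∘ g) (fun n => heC _) hb' hV hg 𝒰 ho hcov

end Pool.Agent.Results.MP_5a68e6_gt.LocallyFiniteApproximation
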